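import Mathlib
import Pool.Agent.P.MP_c446d6_co.Data

/-!
The product formula for the cross-index of face posets fails for the cyclic group of order 4.
-/

set_option autoImplicit false
set_option maxRecDepth 100000
open scoped Pointwise

namespace Pool.Agent.Results.MP_c446d6_co.ProductFails

/-- K is the set of nonempty simplices of an abstract simplicial complex with vertex set V, on which
G acts simplicially (g • σ is the image of σ under g) and freely. -/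
structure IsFreeComplex (G V : Type) [Group G] [MulAction G V] [DecidableEq V]
    (K : Set (Finset V)) : Prop where
  nonempty : ∀ σ ∈ K, σ.Nonempty
  vertex : ∀ v : V, {v} ∈ K
  down : ∀ σ ∈ K, ∀ τ : Finset V, τ.Nonempty → τ ⊆ σ → τ ∈ K
  smul_mem : ∀ g : G, ∀ σ ∈ K, g • σ ∈ K
  free : ∀ g : G, ∀ σ ∈ K, g • σ = σ → g = 1

/-- There is a G-map from the G-poset P (a subset of A with the order and action of A) to
Q_n G = G × {0,...,n}, where (g,i) < (h,j) iff i < j and g • (h,i) = (g h, i). -/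
def HasMapTo (G : Type) [Group G] {A : Type} [PartialOrder A] [MulAction G A] (P : Set A)
    (n : ℕ) : Prop :=
  ∃ ψ : A → G × Fin (n + 1),
    (∀ p ∈ P, ∀ q ∈ P, p ≤ q → ψ p = ψ q ∨ (ψ p).2 < (ψ q).2) ∧
    (∀ g : G, ∀ p ∈ P, ψ (g • p) = (g * (ψ p).1, (ψ p).2))

/-- The cross-index of P equals n. -/
def XindEq (G : Type) [Group G] {A : Type} [PartialOrder A] [MulAction G A] (P : Set A)
    (n : ℕ) : Prop :=
  IsLeast {m : ℕ | HasMapTo G P m} n

open Pool.Agent.P.MP_c446d6_co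

theorem hasMapTo_succ {G : Type} [Group G] {A : Type} [PartialOrder A] [MulAction G A]
    {P : Set A} {n : ℕ} (h : HasMapTo G P n) : HasMapTo G P (n + 1) := by
  obtain ⟨ψ, h1, h2⟩ := h
  refine ⟨fun p => ((ψ p).1, (ψ p).2.castSucc), ?_, ?_⟩
  · intro p hp q hq hpq
    rcases h1 p hp q hq hpq with h | h
    · left; simp [h]
    · right; simpa using h
  · intro g p hp
    simp [h2 g p hp]

theorem result :
    ∃ (V₁ V₂ : Type) (_ : Fintype V₁) (_ : Fintype V₂) (_ : DecidableEq V₁) (_ : DecidableEq V₂)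
      (_ : MulAction (Multiplicative (ZMod 4)) V₁) (_ : MulAction (Multiplicative (ZMod 4)) V₂)
      (K₁ : Set (Finset V₁)) (K₂ : Set (Finset V₂)),
      IsFreeComplex (Multiplicative (ZMod 4)) V₁ K₁ ∧
      IsFreeComplex (Multiplicative (ZMod 4)) V₂ K₂ ∧
      XindEq (Multiplicative (ZMod 4)) K₁ 2 ∧
      XindEq (Multiplicative (ZMod 4)) K₂ 2 ∧
      XindEq (Multiplicative (ZMod 4)) (K₁ ×ˢ K₂) 1 := by
  let act : ∀ r : ℕ, MulAction (Multiplicative (ZMod 4)) (ZMod 4 × Fin r) := fun r =>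
    { smul := fun g v => (g.toAdd + v.1, v.2)
      one_smul := fun v => by
        show ((Multiplicative.toAdd (1 : Multiplicative (ZMod 4))) + v.1, v.2) = v
        simp
      mul_smul := fun a b v => by
        show ((Multiplicative.toAdd (a * b)) + v.1, v.2) = (a.toAdd + (b.toAdd + v.1), v.2)
        simp [add_assoc] }
  letI := act 3
  letI := act 2
  have e3 : ∀ (g : Multiplicative (ZMod 4)) (σ : Finset (ZMod 4 × Fin 3)),
      g • σ = sh g.toAdd σ := fun g σ => rfl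
  have e2 : ∀ (g : Multiplicative (ZMod 4)) (σ : Finset (ZMod 4 × Fin 2)),
      g • σ = sh g.toAdd σ := fun g σ => rfl
  have ofR : ∀ {n : ℕ} (x y : ZMod 4 × Fin n), R 0 x y →
      ((Multiplicative.ofAdd x.1, x.2) = (Multiplicative.ofAdd y.1, y.2) ∨ x.2 < y.2) := by
    intro n x y h
    rcases h with h | ⟨h1, h2⟩
    · exact Or.inr h
    · left; rw [zero_add] at h2; rw [h1, h2]
  have toR : ∀ {n : ℕ} (h : ZMod 4) (x y z : Multiplicative (ZMod 4) × Fin n),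
      z = (Multiplicative.ofAdd h * x.1, x.2) → (z = y ∨ z.2 < y.2) →
      R h (x.1.toAdd, x.2) (y.1.toAdd, y.2) := by
    intro n h x y z hz hy
    subst hz
    rcases hy with hy | hy
    · right; subst hy; exact ⟨rfl, rfl⟩
    · left; exact hy
  have no1 : ¬ HasMapTo (Multiplicative (ZMod 4)) {σ | σ ∈ K1} 1 := by
    rintro ⟨ψ, h1, h2⟩
    refine no_map_K1 (fun σ => ((ψ σ).1.toAdd, (ψ σ).2)) ?_
    rintro h σ τ ⟨hσ, hτ, hs, hsub⟩
    exact toR h _ _ (ψ (sh h σ)) (h2 (Multiplicative.ofAdd h) σ hσ) (h1 _ hs _ hτ hsub)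
  have no2 : ¬ HasMapTo (Multiplicative (ZMod 4)) {σ | σ ∈ K2} 1 := by
    rintro ⟨ψ, h1, h2⟩
    refine no_map_K2 (fun σ => ((ψ σ).1.toAdd, (ψ σ).2)) ?_
    rintro h σ τ ⟨hσ, hτ, hs, hsub⟩
    exact toR h _ _ (ψ (sh h σ)) (h2 (Multiplicative.ofAdd h) σ hσ) (h1 _ hs _ hτ hsub)
  refine ⟨ZMod 4 × Fin 3, ZMod 4 × Fin 2, inferInstance, inferInstance, inferInstance,
    inferInstance, act 3, act 2, {σ | σ ∈ K1}, {σ | σ ∈ K2}, ?_, ?_, ⟨?_, ?_⟩, ⟨?_, ?_⟩, ⟨?_, ?_⟩⟩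
  · exact ⟨K1_nonempty, K1_vert,
      fun σ hσ τ hτ hs => K1_down σ hσ τ (Finset.mem_powerset.2 hs) hτ,
      fun g σ hσ => K1_sh g.toAdd σ hσ,
      fun g σ hσ h => K1_free g.toAdd σ hσ h⟩
  · exact ⟨K2_nonempty, K2_vert,
      fun σ hσ τ hτ hs => K2_down σ hσ τ (Finset.mem_powerset.2 hs) hτ,
      fun g σ hσ => K2_sh g.toAdd σ hσ,
      fun g σ hσ h => K2_free g.toAdd σ hσ h⟩
  · refine ⟨fun σ => (Multiplicative.ofAdd (dimK1 σ).1, (dimK1 σ).2), ?_, ?_⟩
    · intro p hp q hq hpq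
      exact ofR _ _ (dimK1_mono p hp q hq hpq)
    · intro g p hp
      show (Multiplicative.ofAdd (dimK1 (sh g.toAdd p)).1, (dimK1 (sh g.toAdd p)).2) = _
      rw [dimK1_sh g.toAdd p hp]; rfl
  · intro m hm
    by_contra hlt
    obtain rfl | rfl : m = 0 ∨ m = 1 := by omega
    · exact no1 (hasMapTo_succ hm)
    · exact no1 hm
  · refine ⟨fun σ => (Multiplicative.ofAdd (dimK2 σ).1, (dimK2 σ).2), ?_, ?_⟩
    · intro p hp q hq hpq
      exact ofR _ _ (dimK2_mono p hp q hq hpq)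
    · intro g p hp
      show (Multiplicative.ofAdd (dimK2 (sh g.toAdd p)).1, (dimK2 (sh g.toAdd p)).2) = _
      rw [dimK2_sh g.toAdd p hp]; rfl
  · intro m hm
    by_contra hlt
    obtain rfl | rfl : m = 0 ∨ m = 1 := by omega
    · exact no2 (hasMapTo_succ hm)
    · exact no2 hm
  · refine ⟨fun p => (Multiplicative.ofAdd (chiT (par p.1) p.2).1, (chiT (par p.1) p.2).2), ?_, ?_⟩
    · rintro ⟨p1, p2⟩ ⟨hp1, hp2⟩ ⟨q1, q2⟩ ⟨hq1, hq2⟩ ⟨h1, h2⟩
      have hpar : par p1 = par q1 := par_mono p1 hp1 q1 hq1 h1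
      refine ofR (chiT (par p1) p2) (chiT (par q1) q2) ?_
      rw [← hpar]
      rcases par_val p1 with h | h <;> rw [h]
      · exact chiT_mono0 p2 hp2 q2 hq2 h2
      · exact chiT_mono1 p2 hp2 q2 hq2 h2
    · rintro g ⟨p1, p2⟩ ⟨hp1, hp2⟩
      show (Multiplicative.ofAdd (chiT (par (sh g.toAdd p1)) (sh g.toAdd p2)).1,
        (chiT (par (sh g.toAdd p1)) (sh g.toAdd p2)).2) =
        (g * Multiplicative.ofAdd (chiT (par p1) p2).1, (chiT (par p1) p2).2)
      rw [par_sh g.toAdd p1 hp1]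
      rcases par_val p1 with h | h <;> rw [h]
      · rw [chiT_sh0 g.toAdd p2 hp2]; rfl
      · rw [chiT_sh1 g.toAdd p2 hp2]; rfl
  · intro m hm
    by_contra hlt
    obtain rfl : m = 0 := by omega
    obtain ⟨ψ, h1, h2⟩ := hm
    have key : ∀ p q : Finset (ZMod 4 × Fin 3) × Finset (ZMod 4 × Fin 2),
        (p.1 ∈ K1 ∧ p.2 ∈ K2 ∧ q.1 ∈ K1 ∧ q.2 ∈ K2 ∧ p.1 ⊆ q.1 ∧ p.2 ⊆ q.2) → ψ p = ψ q := by
      rintro p q ⟨a, b, c, d, e, f⟩
      rcases h1 p ⟨a, b⟩ q ⟨c, d⟩ ⟨e, f⟩ with h | h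
      · exact h
      · exact absurd h (by omega)
    have s1 := key ({(0, 0)}, {(0, 0)}) ({(0, 0), (0, 1)}, {(0, 0), (1, 0)}) (by decide +kernel)
    have s2 := key ({(0, 1)}, {(1, 0)}) ({(0, 0), (0, 1)}, {(0, 0), (1, 0)}) (by decide +kernel)
    have s3 := key ({(0, 1)}, {(1, 0)}) ({(0, 1), (2, 0)}, {(1, 0), (2, 0)}) (by decide +kernel)
    have s4 := key ({(2, 0)}, {(2, 0)}) ({(0, 1), (2, 0)}, {(1, 0), (2, 0)}) (by decide +kernel)
    have s5 := h2 (Multiplicative.ofAdd 2) ({(0, 0)}, {(0, 0)})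
      ⟨K1_vert _, K2_vert _⟩
    have s6 : (Multiplicative.ofAdd (2 : ZMod 4)) •
        (({(0, 0)}, {(0, 0)}) : Finset (ZMod 4 × Fin 3) × Finset (ZMod 4 × Fin 2)) =
        ({(2, 0)}, {(2, 0)}) := by
      show (sh 2 {(0, 0)}, sh 2 {(0, 0)}) = _
      decide +kernel
    rw [s6, s4, ← s3, s2, ← s1] at s5
    have s7 := congrArg Prod.fst s5
    have s8 : Multiplicative.ofAdd (2 : ZMod 4) = 1 := by
      simpa using s7
    exact absurd s8 (by decide)

end Pool.Agent.Results.MP_c446d6_co.ProductFails
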